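import Pool.Agent.L7h80.RC.Stm

set_option autoImplicit false

open MvPowerSeries Pool.Agent.L7h80.RC

namespace Pool.Agent.L7h41.RC

theorem hasSubst {n : ℕ} (w : Fin n → ℕ) (hw : ∀ i, 0 < w i) (c : Fin n → ℂ) :
    HasSubst (fun i => (PowerSeries.C (c i) * PowerSeries.X ^ w i : PowerSeries ℂ)) := by
  refine hasSubst_of_constantCoeff_zero fun i => ?_
  have h : PowerSeries.constantCoeff (PowerSeries.C (c i) * PowerSeries.X ^ w i : PowerSeries ℂ) =
      0 := by
    rw [map_mul, map_pow, PowerSeries.constantCoeff_X, zero_pow (hw i).ne', mul_zero]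
  exact h

theorem s_BR : S_BR := by
  intro n w hw c
  have ha := hasSubst w hw c
  refine ⟨fun f g => subst_add ha f g, fun f g => subst_mul ha f g, fun a => ?_, fun i => ?_⟩
  · exact subst_C a
  · exact subst_X ha i

end Pool.Agent.L7h41.RC
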